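import Pool.Agent.Y177.SU.Alg2

set_option autoImplicit false
set_option linter.unusedSectionVars false

/-! Descent of the first fundamental theorem (for helper142, project Y142-SU, FFTD). -/

open Matrix Polynomial

namespace Pool.Agent.Y177.SU

open Pool.Agent.Y142.SU

variable {K : Type} [Field K] [CharZero K] {N k : ℕ} {𝒞 : Subalgebra K (Matrix (Fin N) (Fin N) K)}
variable {Ω : Type} [Field Ω] [Algebra K Ω]

/-- the vectors over the larger field -/
def upv (Ω : Type) [Field Ω] [Algebra K Ω] (v : Fin N → K) : Fin N → Ω :=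
  fun i => algebraMap K Ω (v i)

/-- expansion of a multilinear form -/
theorem expand {F : Type} [Field F] (ψ : MultilinearMap F (fun _ : Fin k => Fin N → F) F)
    (v : Fin k → Fin N → F) :
    ψ v = ∑ r : Fin k → Fin N, (∏ j, v j (r j)) * ψ (fun j => Pi.single (r j) 1) := by
  have h1 : v = fun j => ∑ a : Fin N, v j a • (Pi.single a (1 : F) : Fin N → F) := by
    funext j
    exact (pi_eq_sum_univ' (v j)).trans (Finset.sum_congr rfl fun a _ => by congr 1)
  conv_lhs => rw [h1]
  rw [MultilinearMap.map_sum]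
  refine Finset.sum_congr rfl fun r _ => ?_
  rw [MultilinearMap.map_smul_univ, smul_eq_mul]

/-- base change of a multilinear form -/
noncomputable def upf (Ω : Type) [Field Ω] [Algebra K Ω]
    (φ : MultilinearMap K (fun _ : Fin k => Fin N → K) K) :
    MultilinearMap Ω (fun _ : Fin k => Fin N → Ω) Ω :=
  ∑ r : Fin k → Fin N, algebraMap K Ω (φ (fun j => Pi.single (r j) 1)) •
    (MultilinearMap.mkPiAlgebra Ω (Fin k) Ω).compLinearMap
      (fun j => (LinearMap.proj (r j) : (Fin N → Ω) →ₗ[Ω] Ω))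

theorem upf_apply (φ : MultilinearMap K (fun _ : Fin k => Fin N → K) K) (v : Fin k → Fin N → Ω) :
    upf Ω φ v = ∑ r : Fin k → Fin N, algebraMap K Ω (φ (fun j => Pi.single (r j) 1)) *
      ∏ j, v j (r j) := by
  simp [upf]

theorem upf_up (φ : MultilinearMap K (fun _ : Fin k => Fin N → K) K) (v : Fin k → Fin N → K) :
    upf Ω φ (fun j => upv Ω (v j)) = algebraMap K Ω (φ v) := by
  rw [upf_apply, expand φ v, map_sum]
  refine Finset.sum_congr rfl fun r _ => ?_
  rw [map_mul, map_prod, mul_comm]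
  rfl

theorem lam (φ : MultilinearMap K (fun _ : Fin k => Fin N → K) K) (lm : Ω →ₗ[K] K)
    (v : Fin k → Fin N → K) (j : Fin k) (w : Fin N → Ω) :
    lm (upf Ω φ (Function.update (fun i => upv Ω (v i)) j w)) =
      φ (Function.update v j (fun a => lm (w a))) := by
  have h1 : ∀ (F : Type) [Field F] (u : Fin N → F),
      u = ∑ a : Fin N, u a • (Pi.single a (1 : F) : Fin N → F) := by
    intro F _ u
    exact (pi_eq_sum_univ' u).trans (Finset.sum_congr rfl fun a _ => by congr 1)
  have h2 : ∀ a : Fin N, upf Ω φ (Function.update (fun i => upv Ω (v i)) j (Pi.single a 1)) =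
      algebraMap K Ω (φ (Function.update v j (Pi.single a 1))) := by
    intro a
    rw [← upf_up]
    congr 1
    funext i
    by_cases h : i = j
    · subst h
      rw [Function.update_self, Function.update_self]
      funext b
      unfold upv
      by_cases hb : b = a
      · subst hb; simp
      · rw [Pi.single_eq_of_ne hb, Pi.single_eq_of_ne hb, map_zero]
    · rw [Function.update_of_ne h, Function.update_of_ne h]
  have e1 := h1 Ω w
  have e2 := h1 K (fun a => lm (w a))
  have l1 : upf Ω φ (Function.update (fun i => upv Ω (v i)) j w) =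
      ∑ a, w a * algebraMap K Ω (φ (Function.update v j (Pi.single a 1))) := by
    conv_lhs => rw [e1]
    rw [MultilinearMap.map_update_sum]
    refine Finset.sum_congr rfl fun a _ => ?_
    rw [MultilinearMap.map_update_smul, h2, smul_eq_mul]
  have l2 : φ (Function.update v j (fun a => lm (w a))) =
      ∑ a, lm (w a) * φ (Function.update v j (Pi.single a 1)) := by
    rw [e2, MultilinearMap.map_update_sum]
    refine Finset.sum_congr rfl fun a _ => ?_
    rw [MultilinearMap.map_update_smul, smul_eq_mul]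
  rw [l1, l2, map_sum]
  refine Finset.sum_congr rfl fun a _ => ?_
  rw [mul_comm, ← Algebra.smul_def, map_smul, smul_eq_mul, mul_comm]

theorem map_mul_up (lm : Ω →ₗ[K] K) (X : Matrix (Fin N) (Fin N) Ω) (A : Matrix (Fin N) (Fin N) K) :
    (X * up Ω A).map lm = X.map lm * A := by
  ext i j
  rw [Matrix.map_apply, Matrix.mul_apply, Matrix.mul_apply, map_sum]
  refine Finset.sum_congr rfl fun a _ => ?_
  rw [Matrix.map_apply, up, Matrix.map_apply, mul_comm, ← Algebra.smul_def, map_smul, smul_eq_mul,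
    mul_comm]

theorem map_up_mul (lm : Ω →ₗ[K] K) (X : Matrix (Fin N) (Fin N) Ω) (A : Matrix (Fin N) (Fin N) K) :
    (up Ω A * X).map lm = A * X.map lm := by
  ext i j
  rw [Matrix.map_apply, Matrix.mul_apply, Matrix.mul_apply, map_sum]
  refine Finset.sum_congr rfl fun a _ => ?_
  rw [Matrix.map_apply, up, Matrix.map_apply, ← Algebra.smul_def, map_smul, smul_eq_mul]

theorem su_map (lm : Ω →ₗ[K] K) {J : Matrix (Fin N) (Fin N) K} {X : Matrix (Fin N) (Fin N) Ω}
    (hX : SULie (up Ω J) (bc 𝒞 Ω) X) : SULie J 𝒞 (X.map lm) := by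
  obtain ⟨h1, h2, h3⟩ := hX
  refine ⟨fun A hA => ?_, ?_, fun A hA => ?_⟩
  · rw [← map_mul_up, ← map_up_mul, h1 _ (up_mem hA)]
  · rw [← Matrix.transpose_map, ← map_mul_up, ← map_up_mul]
    have h4 : (Xᵀ * up Ω J).map lm + (up Ω J * X).map lm =
        (Xᵀ * up Ω J + up Ω J * X).map lm := by
      ext i j
      simp
    rw [h4, h2]
    ext i j
    simp
  · rw [← map_mul_up]
    have h4 : ((X * up Ω A).map lm).trace = lm (X * up Ω A).trace := by
      unfold Matrix.trace
      simp
    rw [h4, h3 _ (up_mem hA), map_zero]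

/-- the form over the larger field is killed by the larger Lie algebra -/
theorem killed {J : Matrix (Fin N) (Fin N) K}
    (φ : MultilinearMap K (fun _ : Fin k => Fin N → K) K)
    (h : ∀ X, SULie J 𝒞 X → ∀ v : Fin k → Fin N → K,
      ∑ j, φ (Function.update v j (X *ᵥ v j)) = 0)
    (X : Matrix (Fin N) (Fin N) Ω) (hX : SULie (up Ω J) (bc 𝒞 Ω) X) (v : Fin k → Fin N → Ω) :
    ∑ j, upf Ω φ (Function.update v j (X *ᵥ v j)) = 0 := by
  classical
  have hK : ∀ u : Fin k → Fin N → K,
      ∑ j, upf Ω φ (Function.update (fun i => upv Ω (u i)) j (X *ᵥ upv Ω (u j))) = 0 := by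
    intro u
    rw [← Module.forall_dual_apply_eq_zero_iff K]
    intro lm
    rw [map_sum, ← h (X.map lm) (su_map lm hX) u]
    refine Finset.sum_congr rfl fun j _ => ?_
    rw [lam]
    congr 2
    funext a
    unfold Matrix.mulVec dotProduct upv
    rw [map_sum]
    refine Finset.sum_congr rfl fun b _ => ?_
    show lm (X a b * algebraMap K Ω (u j b)) = lm (X a b) * u j b
    rw [mul_comm, ← Algebra.smul_def, map_smul, smul_eq_mul, mul_comm]
  let Ψ : MultilinearMap Ω (fun _ : Fin k => Fin N → Ω) Ω :=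
    ∑ j, (upf Ω φ).compLinearMap (fun i => if i = j then X.mulVecLin else LinearMap.id)
  have hΨ : ∀ u, Ψ u = ∑ j, upf Ω φ (Function.update u j (X *ᵥ u j)) := by
    intro u
    show (∑ j, (upf Ω φ).compLinearMap
      (fun i => if i = j then X.mulVecLin else LinearMap.id)) u = _
    rw [_root_.sum_apply]
    refine Finset.sum_congr rfl fun j _ => ?_
    rw [MultilinearMap.compLinearMap_apply]
    congr 1
    funext i
    by_cases hi : i = j
    · subst hi
      rw [if_pos rfl, Function.update_self, Matrix.mulVecLin_apply]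
    · rw [if_neg hi, Function.update_of_ne hi, LinearMap.id_apply]
  rw [← hΨ, expand Ψ v]
  apply Finset.sum_eq_zero
  intro r _
  have h1 : (fun j : Fin k => (Pi.single (r j) (1 : Ω) : Fin N → Ω)) =
      fun j => upv Ω (Pi.single (r j) (1 : K)) := by
    funext j b
    unfold upv
    by_cases hb : b = r j
    · subst hb; simp
    · rw [Pi.single_eq_of_ne hb, Pi.single_eq_of_ne hb, map_zero]
  rw [h1, hΨ]
  rw [hK (fun j => Pi.single (r j) (1 : K)), mul_zero]

/-- products over a set of indices -/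
def Sp (J : Matrix (Fin N) (Fin N) K) (𝒞 : Subalgebra K (Matrix (Fin N) (Fin N) K))
    (π : Fin k → Fin k) (s : Finset (Fin k)) : Submodule K ((Fin k → Fin N → K) → K) :=
  Submodule.span K {f | ∃ B : Fin k → Matrix (Fin N) (Fin N) K, (∀ j, B j ∈ 𝒞) ∧
    ∀ v, f v = ∏ j ∈ s, ((B j *ᵥ v j) ⬝ᵥ J *ᵥ v (π j))}

theorem Sp_insert {J : Matrix (Fin N) (Fin N) K} {π : Fin k → Fin k} {s : Finset (Fin k)}
    {a : Fin k} (ha : a ∉ s) {b : Matrix (Fin N) (Fin N) K} (hb : b ∈ 𝒞)
    {f : (Fin k → Fin N → K) → K} (hf : f ∈ Sp J 𝒞 π s) :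
    (fun v => ((b *ᵥ v a) ⬝ᵥ J *ᵥ v (π a)) * f v) ∈ Sp J 𝒞 π (insert a s) := by
  classical
  unfold Sp at hf
  induction hf using Submodule.span_induction with
  | mem f hf =>
    obtain ⟨B, hB, hfB⟩ := hf
    apply Submodule.subset_span
    refine ⟨Function.update B a b, fun j => ?_, fun v => ?_⟩
    · by_cases hj : j = a
      · subst hj
        rw [Function.update_self]
        exact hb
      · rw [Function.update_of_ne hj]
        exact hB j
    · show ((b *ᵥ v a) ⬝ᵥ J *ᵥ v (π a)) * f v = _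
      rw [Finset.prod_insert ha, Function.update_self, hfB v]
      congr 1
      refine Finset.prod_congr rfl fun j hj => ?_
      have hja : j ≠ a := fun h => ha (by rw [← h]; exact hj)
      rw [Function.update_of_ne hja]
  | zero =>
    have : (fun v : Fin k → Fin N → K => ((b *ᵥ v a) ⬝ᵥ J *ᵥ v (π a)) *
        (0 : (Fin k → Fin N → K) → K) v) = 0 := by
      funext v
      simp
    rw [this]
    exact Submodule.zero_mem _
  | add f g _ _ h1 h2 =>
    have : (fun v : Fin k → Fin N → K => ((b *ᵥ v a) ⬝ᵥ J *ᵥ v (π a)) * (f + g) v) =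
        (fun v => ((b *ᵥ v a) ⬝ᵥ J *ᵥ v (π a)) * f v) +
          fun v => ((b *ᵥ v a) ⬝ᵥ J *ᵥ v (π a)) * g v := by
      funext v
      simp only [Pi.add_apply]
      ring
    rw [this]
    exact Submodule.add_mem _ h1 h2
  | smul c f _ h1 =>
    have : (fun v : Fin k → Fin N → K => ((b *ᵥ v a) ⬝ᵥ J *ᵥ v (π a)) * (c • f) v) =
        c • (fun v => ((b *ᵥ v a) ⬝ᵥ J *ᵥ v (π a)) * f v) := by
      funext v
      simp only [Pi.smul_apply, smul_eq_mul]
      ring
    rw [this]
    exact Submodule.smul_mem _ _ h1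

theorem pairing {d : ℕ} (b : Module.Basis (Fin d) K 𝒞) (J : Matrix (Fin N) (Fin N) K)
    (c : Fin d → Ω) (x y : Fin N → K) :
    ((∑ i, c i • up Ω (b i : Matrix (Fin N) (Fin N) K)) *ᵥ upv Ω x) ⬝ᵥ up Ω J *ᵥ upv Ω y =
      ∑ i, c i * algebraMap K Ω (((b i : Matrix (Fin N) (Fin N) K) *ᵥ x) ⬝ᵥ J *ᵥ y) := by
  have h1 : ∀ (A : Matrix (Fin N) (Fin N) K) (z : Fin N → K),
      up Ω A *ᵥ upv Ω z = upv Ω (A *ᵥ z) := by
    intro A z
    funext a
    unfold Matrix.mulVec dotProduct upv up
    rw [map_sum]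
    refine Finset.sum_congr rfl fun b _ => ?_
    show algebraMap K Ω (A a b) * algebraMap K Ω (z b) = algebraMap K Ω (A a b * z b)
    rw [map_mul]
  have h2 : ∀ z w : Fin N → K, upv Ω z ⬝ᵥ upv Ω w = algebraMap K Ω (z ⬝ᵥ w) := by
    intro z w
    unfold dotProduct upv
    rw [map_sum]
    exact Finset.sum_congr rfl fun b _ => by rw [map_mul]
  rw [Matrix.sum_mulVec, sum_dotProduct]
  refine Finset.sum_congr rfl fun i _ => ?_
  rw [Matrix.smul_mulVec, smul_dotProduct, h1, h1, h2, smul_eq_mul]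

/-- descent of the products -/
theorem desc_prod {J : Matrix (Fin N) (Fin N) K} (r : Ω →ₗ[K] K) (π : Fin k → Fin k)
    (A : Fin k → Matrix (Fin N) (Fin N) Ω) (hA : ∀ j, A j ∈ bc 𝒞 Ω) (s : Finset (Fin k)) :
    ∀ ω : Ω, (fun v : Fin k → Fin N → K =>
      r (ω * ∏ j ∈ s, ((A j *ᵥ upv Ω (v j)) ⬝ᵥ up Ω J *ᵥ upv Ω (v (π j))))) ∈ Sp J 𝒞 π s := by
  classical
  induction s using Finset.induction_on with
  | empty =>
    intro ω
    have : (fun v : Fin k → Fin N → K =>
        r (ω * ∏ j ∈ (∅ : Finset (Fin k)), ((A j *ᵥ upv Ω (v j)) ⬝ᵥ up Ω J *ᵥ upv Ω (v (π j))))) =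
        r ω • (fun _ => (1 : K)) := by
      funext v
      simp
    rw [this]
    apply Submodule.smul_mem
    apply Submodule.subset_span
    exact ⟨fun _ => 1, fun _ => 𝒞.one_mem, fun v => by simp⟩
  | insert a s ha ih =>
    intro ω
    obtain ⟨c, hc⟩ := coords (Module.finBasis K 𝒞) (hA a)
    have : (fun v : Fin k → Fin N → K =>
        r (ω * ∏ j ∈ insert a s, ((A j *ᵥ upv Ω (v j)) ⬝ᵥ up Ω J *ᵥ upv Ω (v (π j))))) =
        ∑ i, fun v : Fin k → Fin N → K =>
          ((((Module.finBasis K 𝒞 i : 𝒞) : Matrix (Fin N) (Fin N) K) *ᵥ v a) ⬝ᵥ J *ᵥ v (π a)) *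
          r (ω * c i * ∏ j ∈ s, ((A j *ᵥ upv Ω (v j)) ⬝ᵥ up Ω J *ᵥ upv Ω (v (π j)))) := by
      funext v
      rw [Finset.sum_apply, Finset.prod_insert ha, hc, pairing, Finset.sum_mul, Finset.mul_sum,
        map_sum]
      refine Finset.sum_congr rfl fun i _ => ?_
      rw [← smul_eq_mul (a := (((Module.finBasis K 𝒞 i : 𝒞) : Matrix (Fin N) (Fin N) K) *ᵥ v a) ⬝ᵥ
        J *ᵥ v (π a)), ← map_smul, Algebra.smul_def]
      congr 1
      ring
    rw [this]
    exact Submodule.sum_mem _ fun i _ => Sp_insert ha (Module.finBasis K 𝒞 i).2 (ih (ω * c i))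

/-- descent of the span -/
theorem desc {J : Matrix (Fin N) (Fin N) K} (r : Ω →ₗ[K] K)
    {F : (Fin k → Fin N → Ω) → Ω} (hF : F ∈ FromHerm (up Ω J) (bc 𝒞 Ω) k) :
    ∀ ω : Ω, (fun v : Fin k → Fin N → K => r (ω * F (fun j => upv Ω (v j)))) ∈
      FromHerm J 𝒞 k := by
  unfold FromHerm at hF
  induction hF using Submodule.span_induction with
  | mem F hF =>
    intro ω
    obtain ⟨π, A, h1, h2, h3, h4⟩ := hF
    have h5 := desc_prod (J := J) r π A h3 (Finset.univ.filter fun j => j < π j) ω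
    simp only [h4]
    refine Submodule.span_le.2 ?_ h5
    rintro f ⟨B, hB, hf⟩
    exact Submodule.subset_span ⟨π, B, h1, h2, hB, hf⟩
  | zero =>
    intro ω
    have : (fun v : Fin k → Fin N → K =>
        r (ω * (0 : (Fin k → Fin N → Ω) → Ω) (fun j => upv Ω (v j)))) = 0 := by
      funext v
      simp
    rw [this]
    exact Submodule.zero_mem _
  | add F G _ _ h1 h2 =>
    intro ω
    have : (fun v : Fin k → Fin N → K => r (ω * (F + G) (fun j => upv Ω (v j)))) =
        (fun v => r (ω * F (fun j => upv Ω (v j)))) + fun v => r (ω * G (fun j => upv Ω (v j))) := by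
      funext v
      simp only [Pi.add_apply, mul_add, map_add]
    rw [this]
    exact Submodule.add_mem _ (h1 ω) (h2 ω)
  | smul a F _ h1 =>
    intro ω
    have : (fun v : Fin k → Fin N → K => r (ω * (a • F) (fun j => upv Ω (v j)))) =
        fun v => r (ω * a * F (fun j => upv Ω (v j))) := by
      funext v
      simp only [Pi.smul_apply, smul_eq_mul, mul_assoc]
    rw [this]
    exact h1 (ω * a)

theorem t (h : S_FFTU) : S_FFTD := by
  intro ℓ _ N n J 𝒞 hJ hred htr k φ hk hφ
  have h1 := h (AlgebraicClosure ℚ_[ℓ]) N n (up _ J) (bc 𝒞 _) (bc_herm hJ)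
    (bc_red hJ.2.2.1 hred) (bc_rank hred htr) k (upf _ φ) hk (killed φ hφ)
  obtain ⟨r, hr⟩ := LinearMap.exists_leftInverse_of_injective
    (Algebra.linearMap ℚ_[ℓ] (AlgebraicClosure ℚ_[ℓ]))
    (LinearMap.ker_eq_bot.2 (algebraMap ℚ_[ℓ] (AlgebraicClosure ℚ_[ℓ])).injective)
  have h2 := desc (J := J) r h1 1
  have h3 : (fun v : Fin k → Fin N → ℚ_[ℓ] => r (1 * (fun v => upf (AlgebraicClosure ℚ_[ℓ]) φ v)
      (fun j => upv (AlgebraicClosure ℚ_[ℓ]) (v j)))) = fun v => φ v := by
    funext v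
    simp only [one_mul]
    rw [upf_up]
    exact LinearMap.congr_fun hr (φ v)
  rw [h3] at h2
  exact h2

end Pool.Agent.Y177.SU
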