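import Pool.Agent.Y142.SU.Stm

set_option autoImplicit false
set_option linter.unusedSectionVars false

/-! Base change of reduced commutative algebras of matrices (for helper142, project Y142-SU, FFTD). -/

open Matrix Polynomial

namespace Pool.Agent.Y177.SU

/-- the rank of an idempotent matrix is its trace -/
theorem rank_idem {F : Type} [Field F] [CharZero F] {N : ℕ} (E : Matrix (Fin N) (Fin N) F)
    (h : E * E = E) : (E.rank : F) = E.trace := by
  have hp : LinearMap.IsProj (LinearMap.range E.mulVecLin) E.mulVecLin := by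
    refine ⟨fun x => LinearMap.mem_range_self _ x, ?_⟩
    rintro _ ⟨y, rfl⟩
    simp only [Matrix.mulVecLin_apply, Matrix.mulVec_mulVec, h]
  have h1 := hp.trace
  have h2 : LinearMap.trace F (Fin N → F) E.mulVecLin = E.trace := by
    rw [← Matrix.toLin'_apply', Matrix.trace_toLin'_eq]
  rw [← h2, h1]
  rfl

/-- matrices of rank zero -/
theorem eq_zero_of_rank {F : Type} [Field F] {N : ℕ} {E : Matrix (Fin N) (Fin N) F}
    (h : E.rank = 0) : E = 0 := by
  have h1 : LinearMap.range E.mulVecLin = ⊥ := Submodule.finrank_eq_zero.1 h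
  have h2 := LinearMap.range_eq_bot.1 h1
  ext i j
  have h3 := congrFun (LinearMap.congr_fun h2 (Pi.single j 1)) i
  rw [Matrix.mulVecLin_apply, Matrix.mulVec_single_one] at h3
  exact h3

section base
variable {K : Type} [Field K] [CharZero K] {N : ℕ} {𝒞 : Subalgebra K (Matrix (Fin N) (Fin N) K)}

/-- the trace form of a reduced commutative algebra is nondegenerate -/
theorem tr_nondeg (hred : ∀ A ∈ 𝒞, IsNilpotent A → A = 0) (A : Matrix (Fin N) (Fin N) K)
    (hA : A ∈ 𝒞) (h : ∀ B ∈ 𝒞, (A * B).trace = 0) : A = 0 := by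
  have hp : A.charpoly ≠ 0 := (Matrix.charpoly_monic A).ne_zero
  obtain ⟨u, hu, hnd⟩ := Polynomial.exists_eq_pow_rootMultiplicity_mul_and_not_dvd A.charpoly hp 0
  set k := A.charpoly.rootMultiplicity 0 with hk
  rw [Polynomial.C_0, sub_zero] at hu hnd
  have hu0 : u.coeff 0 ≠ 0 := fun h0 => hnd (Polynomial.X_dvd_iff.2 h0)
  have hch : A ^ k * aeval A u = 0 := by
    have := Matrix.aeval_self_charpoly A
    rw [hu, map_mul, map_pow, aeval_X] at this
    exact this
  have hmem : ∀ q : K[X], aeval A q ∈ 𝒞 := fun q =>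
    (Algebra.adjoin_le (Set.singleton_subset_iff.2 hA) : Algebra.adjoin K {A} ≤ 𝒞)
      (Polynomial.aeval_mem_adjoin_singleton K A)
  have hcomm : ∀ q : K[X], Commute A (aeval A q) := fun q => by
    have := Polynomial.aeval_mul (R := K) (x := A) (p := X) (q := q)
    have h2 := Polynomial.aeval_mul (R := K) (x := A) (p := q) (q := X)
    rw [aeval_X] at this h2
    rw [Commute, SemiconjBy, ← this, ← h2, mul_comm]
  have hz : A * aeval A u = 0 := by
    apply hred _ (𝒞.mul_mem hA (hmem u))
    refine ⟨k + 1, ?_⟩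
    rw [(hcomm u).mul_pow, pow_succ' A k, pow_succ' (aeval A u) k]
    calc A * A ^ k * (aeval A u * aeval A u ^ k) = A * (A ^ k * aeval A u) * aeval A u ^ k := by
          simp only [mul_assoc]
      _ = 0 := by rw [hch, mul_zero, zero_mul]
  have hdec : aeval A u = aeval A u.divX * A + (u.coeff 0) • (1 : Matrix (Fin N) (Fin N) K) := by
    conv_lhs => rw [← Polynomial.divX_mul_X_add u]
    rw [map_add, map_mul, aeval_X, aeval_C, Algebra.algebraMap_eq_smul_one]
  set B : Matrix (Fin N) (Fin N) K := (-(u.coeff 0)⁻¹) • aeval A u.divX with hB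
  have hBm : B ∈ 𝒞 := 𝒞.smul_mem (hmem _) _
  have hAB : A * B = B * A := by
    rw [hB, mul_smul_comm, smul_mul_assoc, (hcomm _).eq]
  have hA2 : A * (A * B) = A := by
    rw [hdec, mul_add, mul_smul_comm, mul_one, ← (hcomm _).eq] at hz
    have h3 : (u.coeff 0) • A = -(A * (A * aeval A u.divX)) := by
      rw [eq_neg_iff_add_eq_zero, add_comm]
      exact hz
    rw [hB, mul_smul_comm, mul_smul_comm, neg_smul, ← smul_neg, ← h3, smul_smul,
      inv_mul_cancel₀ hu0, one_smul]
  have he : A * B * (A * B) = A * B := by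
    calc A * B * (A * B) = B * (A * (A * B)) := by rw [hAB]; simp only [mul_assoc]
      _ = A * B := by rw [hA2, hAB]
  have hr := rank_idem _ he
  rw [h B hBm, Nat.cast_eq_zero] at hr
  have h0 : A * B = 0 := eq_zero_of_rank hr
  rw [← hA2, h0, mul_zero]

variable {Ω : Type} [Field Ω] [Algebra K Ω]

/-- the entries in the larger field -/
def up (Ω : Type) [Field Ω] [Algebra K Ω] (A : Matrix (Fin N) (Fin N) K) : Matrix (Fin N) (Fin N) Ω :=
  A.map (algebraMap K Ω)

theorem up_mul (A B : Matrix (Fin N) (Fin N) K) : up Ω (A * B) = up Ω A * up Ω B :=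
  Matrix.map_mul

theorem up_add (A B : Matrix (Fin N) (Fin N) K) : up Ω (A + B) = up Ω A + up Ω B := by
  ext i j; simp [up]

theorem up_smul (c : K) (A : Matrix (Fin N) (Fin N) K) :
    up Ω (c • A) = algebraMap K Ω c • up Ω A := by
  ext i j; simp [up]

theorem up_one : up Ω (1 : Matrix (Fin N) (Fin N) K) = 1 :=
  Matrix.map_one _ (map_zero _) (map_one _)

theorem up_sum {ι : Type} (s : Finset ι) (f : ι → Matrix (Fin N) (Fin N) K) :
    up Ω (∑ i ∈ s, f i) = ∑ i ∈ s, up Ω (f i) := by
  classical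
  induction s using Finset.induction_on with
  | empty => ext i j; simp [up]
  | insert a s ha ih => rw [Finset.sum_insert ha, Finset.sum_insert ha, up_add, ih]

theorem up_trace (A : Matrix (Fin N) (Fin N) K) : (up Ω A).trace = algebraMap K Ω A.trace := by
  unfold up Matrix.trace
  simp

theorem up_transpose (A : Matrix (Fin N) (Fin N) K) : up Ω Aᵀ = (up Ω A)ᵀ := rfl

variable (Ω 𝒞) in
/-- base change of the algebra -/
def bc : Subalgebra Ω (Matrix (Fin N) (Fin N) Ω) :=
  (Submodule.span Ω (up Ω '' (𝒞 : Set (Matrix (Fin N) (Fin N) K)))).toSubalgebra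
    (Submodule.subset_span ⟨1, 𝒞.one_mem, up_one⟩) (fun x y hx hy => by
      have h : x * y ∈ Submodule.span Ω (up Ω '' (𝒞 : Set (Matrix (Fin N) (Fin N) K))) *
          Submodule.span Ω (up Ω '' (𝒞 : Set (Matrix (Fin N) (Fin N) K))) :=
        Submodule.mul_mem_mul hx hy
      rw [Submodule.span_mul_span] at h
      refine Submodule.span_mono ?_ h
      rintro _ ⟨_, ⟨a, ha, rfl⟩, _, ⟨b, hb, rfl⟩, rfl⟩
      exact ⟨a * b, 𝒞.mul_mem ha hb, up_mul a b⟩)

theorem up_mem {A : Matrix (Fin N) (Fin N) K} (hA : A ∈ 𝒞) : up Ω A ∈ bc 𝒞 Ω :=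
  Submodule.subset_span ⟨A, hA, rfl⟩

/-- coordinates with respect to a basis of the small algebra -/
theorem coords {d : ℕ} (b : Module.Basis (Fin d) K 𝒞) {M : Matrix (Fin N) (Fin N) Ω}
    (hM : M ∈ bc 𝒞 Ω) :
    ∃ c : Fin d → Ω, M = ∑ i, c i • up Ω (b i : Matrix (Fin N) (Fin N) K) := by
  have h : M ∈ Submodule.span Ω
      (Set.range fun i => up Ω (b i : Matrix (Fin N) (Fin N) K)) := by
    have h1 : M ∈ Submodule.span Ω (up Ω '' (𝒞 : Set (Matrix (Fin N) (Fin N) K))) := hM
    refine Submodule.span_le.2 ?_ h1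
    rintro _ ⟨A, hA, rfl⟩
    have h2 : A = ∑ i, b.repr ⟨A, hA⟩ i • (b i : Matrix (Fin N) (Fin N) K) := by
      have := congrArg (fun x : 𝒞 => (x : Matrix (Fin N) (Fin N) K)) (b.sum_repr ⟨A, hA⟩)
      simp only [AddSubmonoidClass.coe_finsetSum, Subalgebra.coe_smul] at this
      exact this.symm
    rw [h2, up_sum]
    apply Submodule.sum_mem
    intro i _
    rw [up_smul]
    exact Submodule.smul_mem _ _ (Submodule.subset_span ⟨i, rfl⟩)
  obtain ⟨c, hc⟩ := (Submodule.mem_span_range_iff_exists_fun Ω).1 h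
  exact ⟨c, hc.symm⟩

theorem mem_of_coords {d : ℕ} (b : Module.Basis (Fin d) K 𝒞) (c : Fin d → Ω) :
    ∑ i, c i • up Ω (b i : Matrix (Fin N) (Fin N) K) ∈ bc 𝒞 Ω :=
  Subalgebra.sum_mem _ fun i _ => Subalgebra.smul_mem _ (up_mem (b i).2) _

/-- the Gram matrix of the trace form -/
noncomputable def gram {d : ℕ} (b : Module.Basis (Fin d) K 𝒞) : Matrix (Fin d) (Fin d) K :=
  Matrix.of fun i j => ((b i : Matrix (Fin N) (Fin N) K) * (b j : Matrix (Fin N) (Fin N) K)).trace

theorem gram_det {d : ℕ} (b : Module.Basis (Fin d) K 𝒞)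
    (hred : ∀ A ∈ 𝒞, IsNilpotent A → A = 0) : (gram b).det ≠ 0 := by
  intro h0
  obtain ⟨v, hv, hvG⟩ := Matrix.exists_vecMul_eq_zero_iff.2 h0
  apply hv
  have hA : ∑ i, v i • b i = 0 := by
    have h1 : ((∑ i, v i • b i : 𝒞) : Matrix (Fin N) (Fin N) K) = 0 := by
      apply tr_nondeg hred _ (∑ i, v i • b i : 𝒞).2
      intro B hB
      have h2 : B = ∑ j, b.repr ⟨B, hB⟩ j • (b j : Matrix (Fin N) (Fin N) K) := by
        have := congrArg (fun x : 𝒞 => (x : Matrix (Fin N) (Fin N) K)) (b.sum_repr ⟨B, hB⟩)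
        simp only [AddSubmonoidClass.coe_finsetSum, Subalgebra.coe_smul] at this
        exact this.symm
      rw [h2, Finset.mul_sum, Matrix.trace_sum]
      apply Finset.sum_eq_zero
      intro j _
      rw [mul_smul_comm, Matrix.trace_smul]
      have h3 : ((∑ i, v i • b i : 𝒞) : Matrix (Fin N) (Fin N) K) =
          ∑ i, v i • (b i : Matrix (Fin N) (Fin N) K) := by
        simp only [AddSubmonoidClass.coe_finsetSum, Subalgebra.coe_smul]
      rw [h3, Finset.sum_mul, Matrix.trace_sum]
      have h4 := congrFun hvG j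
      simp only [Matrix.vecMul, dotProduct, gram, Matrix.of_apply, Pi.zero_apply] at h4
      have h5 : ∑ i, (v i • (b i : Matrix (Fin N) (Fin N) K) *
          (b j : Matrix (Fin N) (Fin N) K)).trace = 0 := by
        rw [← h4]
        apply Finset.sum_congr rfl
        intro i _
        rw [smul_mul_assoc, Matrix.trace_smul, smul_eq_mul]
      rw [h5, smul_zero]
    exact Subtype.ext h1
  have := Fintype.linearIndependent_iff.1 b.linearIndependent v hA
  funext i
  exact this i

/-- an element of the base change whose products with the small algebra have trace zero -/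
theorem coords_zero {d : ℕ} (b : Module.Basis (Fin d) K 𝒞)
    (hred : ∀ A ∈ 𝒞, IsNilpotent A → A = 0) (c : Fin d → Ω)
    (h : ∀ j, ((∑ i, c i • up Ω (b i : Matrix (Fin N) (Fin N) K)) *
      up Ω (b j : Matrix (Fin N) (Fin N) K)).trace = 0) : c = 0 := by
  have hd : ((gram b).map (algebraMap K Ω)).det ≠ 0 := by
    have h1 : ((gram b).map (algebraMap K Ω)).det = algebraMap K Ω (gram b).det :=
      (RingHom.map_det _ _).symm
    rw [h1]
    exact fun h0 => gram_det b hred ((algebraMap K Ω).injective (by rw [h0, map_zero]))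
  apply Matrix.eq_zero_of_vecMul_eq_zero hd
  funext j
  have h1 := h j
  rw [Finset.sum_mul, Matrix.trace_sum] at h1
  simp only [Matrix.vecMul, dotProduct, gram, Matrix.map_apply, Matrix.of_apply, Pi.zero_apply]
  rw [← h1]
  apply Finset.sum_congr rfl
  intro i _
  rw [smul_mul_assoc, Matrix.trace_smul, ← up_mul, up_trace, smul_eq_mul]

end base

end Pool.Agent.Y177.SU
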