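import Pool.Agent.Y177.SU.Alg

set_option autoImplicit false
set_option linter.unusedSectionVars false

/-! Base change of reduced commutative algebras of matrices, ranks of idempotents. -/

open Matrix Polynomial

namespace Pool.Agent.Y177.SU

open Pool.Agent.Y142.SU

variable {K : Type} [Field K] [CharZero K] {N : ℕ} {𝒞 : Subalgebra K (Matrix (Fin N) (Fin N) K)}
variable {Ω : Type} [Field Ω] [Algebra K Ω]

theorem bc_comm (hcomm : ∀ A ∈ 𝒞, ∀ B ∈ 𝒞, A * B = B * A) :
    ∀ A ∈ bc 𝒞 Ω, ∀ B ∈ bc 𝒞 Ω, A * B = B * A := by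
  intro A hA B hB
  obtain ⟨c, rfl⟩ := coords (Module.finBasis K 𝒞) hA
  obtain ⟨c', rfl⟩ := coords (Module.finBasis K 𝒞) hB
  rw [Finset.sum_mul_sum, Finset.sum_mul_sum, Finset.sum_comm]
  refine Finset.sum_congr rfl fun i _ => Finset.sum_congr rfl fun j _ => ?_
  rw [smul_mul_smul_comm, smul_mul_smul_comm, ← up_mul, ← up_mul, mul_comm (c _),
    hcomm _ (Module.finBasis K 𝒞 j).2 _ (Module.finBasis K 𝒞 i).2]

theorem bc_red (hcomm : ∀ A ∈ 𝒞, ∀ B ∈ 𝒞, A * B = B * A)
    (hred : ∀ A ∈ 𝒞, IsNilpotent A → A = 0) : ∀ M ∈ bc 𝒞 Ω, IsNilpotent M → M = 0 := by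
  intro M hM hn
  obtain ⟨c, hc⟩ := coords (Module.finBasis K 𝒞) hM
  have h0 : c = 0 := by
    apply coords_zero (Module.finBasis K 𝒞) hred c
    intro j
    rw [← hc]
    have h1 : Commute M (up Ω (Module.finBasis K 𝒞 j : Matrix (Fin N) (Fin N) K)) :=
      bc_comm hcomm M hM _ (up_mem (Module.finBasis K 𝒞 j).2)
    exact (Matrix.isNilpotent_trace_of_isNilpotent (h1.isNilpotent_mul_right hn)).eq_zero
  rw [hc, h0]
  simp

/-- multiplication in coordinates -/
theorem mul_coords {d : ℕ} (b : Module.Basis (Fin d) K 𝒞) (c : Fin d → Ω) (j : Fin d) :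
    (∑ i, c i • up Ω (b i : Matrix (Fin N) (Fin N) K)) * up Ω (b j : Matrix (Fin N) (Fin N) K) =
      ∑ k, (∑ i, c i • (Algebra.leftMulMatrix b (b i)).map (algebraMap K Ω)) k j •
        up Ω (b k : Matrix (Fin N) (Fin N) K) := by
  have h1 : ∀ i, up Ω (b i : Matrix (Fin N) (Fin N) K) * up Ω (b j : Matrix (Fin N) (Fin N) K) =
      ∑ k, algebraMap K Ω (Algebra.leftMulMatrix b (b i) k j) •
        up Ω (b k : Matrix (Fin N) (Fin N) K) := by
    intro i
    rw [← up_mul]
    have h2 : (b i : Matrix (Fin N) (Fin N) K) * (b j : Matrix (Fin N) (Fin N) K) =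
        ∑ k, Algebra.leftMulMatrix b (b i) k j • (b k : Matrix (Fin N) (Fin N) K) := by
      have h3 := congrArg (fun x : 𝒞 => (x : Matrix (Fin N) (Fin N) K)) (b.sum_repr (b i * b j))
      simp only [AddSubmonoidClass.coe_finsetSum, Subalgebra.coe_smul, Subalgebra.coe_mul] at h3
      rw [← h3]
      exact Finset.sum_congr rfl fun k _ => by rw [Algebra.leftMulMatrix_eq_repr_mul]
    rw [h2, up_sum]
    exact Finset.sum_congr rfl fun k _ => up_smul _ _
  rw [Finset.sum_mul]
  simp only [smul_mul_assoc, h1, Finset.smul_sum, smul_smul]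
  rw [Finset.sum_comm]
  refine Finset.sum_congr rfl fun k _ => ?_
  rw [Matrix.sum_apply, Finset.sum_smul]
  refine Finset.sum_congr rfl fun i _ => ?_
  rw [Matrix.smul_apply, Matrix.map_apply, smul_eq_mul]

theorem bc_rank [CharZero Ω] {n : ℕ} (hred : ∀ A ∈ 𝒞, IsNilpotent A → A = 0)
    (htr : ∀ A : 𝒞, (A : Matrix (Fin N) (Fin N) K).trace =
      (n : K) * LinearMap.trace K 𝒞 (LinearMap.mulLeft K A)) :
    ∀ e ∈ bc 𝒞 Ω, e * e = e → e ≠ 0 → n ≤ e.rank := by
  intro e he hee hne
  set b := Module.finBasis K 𝒞 with hb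
  obtain ⟨c, hc⟩ := coords b he
  set L : Matrix (Fin (Module.finrank K 𝒞)) (Fin (Module.finrank K 𝒞)) Ω :=
    ∑ i, c i • (Algebra.leftMulMatrix b (b i)).map (algebraMap K Ω) with hL
  have hmul : ∀ j, e * up Ω (b j : Matrix (Fin N) (Fin N) K) =
      ∑ k, L k j • up Ω (b k : Matrix (Fin N) (Fin N) K) := by
    intro j
    rw [hc]
    exact mul_coords b c j
  have hind : ∀ a : Fin (Module.finrank K 𝒞) → Ω,
      ∑ k, a k • up Ω (b k : Matrix (Fin N) (Fin N) K) = 0 → a = 0 := by
    intro a ha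
    apply coords_zero b hred a
    intro j
    rw [ha, zero_mul, Matrix.trace_zero]
  have hLL : L * L = L := by
    have h1 : ∀ j, ∑ l, (L * L - L) l j • up Ω (b l : Matrix (Fin N) (Fin N) K) = 0 := by
      intro j
      have h2 : e * (e * up Ω (b j : Matrix (Fin N) (Fin N) K)) =
          e * up Ω (b j : Matrix (Fin N) (Fin N) K) := by rw [← mul_assoc, hee]
      have h3 : e * (e * up Ω (b j : Matrix (Fin N) (Fin N) K)) =
          ∑ l, (L * L) l j • up Ω (b l : Matrix (Fin N) (Fin N) K) := by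
        rw [hmul j, Finset.mul_sum]
        simp only [mul_smul_comm, hmul, Finset.smul_sum, smul_smul]
        rw [Finset.sum_comm]
        refine Finset.sum_congr rfl fun l _ => ?_
        rw [Matrix.mul_apply, Finset.sum_smul]
        exact Finset.sum_congr rfl fun k _ => by rw [mul_comm]
      simp only [Matrix.sub_apply, sub_smul, Finset.sum_sub_distrib]
      rw [← h3, ← hmul j, h2, sub_self]
    ext l j
    have h4 := congrFun (hind _ (h1 j)) l
    simp only [Matrix.sub_apply, Pi.zero_apply] at h4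
    exact sub_eq_zero.1 h4
  have hL0 : L ≠ 0 := by
    intro h0
    apply hne
    have h1 : (1 : Matrix (Fin N) (Fin N) K) =
        ∑ j, b.repr 1 j • (b j : Matrix (Fin N) (Fin N) K) := by
      have := congrArg (fun x : 𝒞 => (x : Matrix (Fin N) (Fin N) K)) (b.sum_repr 1)
      simp only [AddSubmonoidClass.coe_finsetSum, Subalgebra.coe_smul, Subalgebra.coe_one] at this
      exact this.symm
    have h2 : e = e * up Ω (1 : Matrix (Fin N) (Fin N) K) := by rw [up_one, mul_one]
    rw [h2, h1, up_sum, Finset.mul_sum]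
    apply Finset.sum_eq_zero
    intro j _
    rw [up_smul, mul_smul_comm, hmul j, h0]
    simp
  have hr1 := rank_idem _ hLL
  have hr2 := rank_idem _ hee
  have htL : e.trace = (n : Ω) * L.trace := by
    rw [hc, hL, Matrix.trace_sum, Matrix.trace_sum, Finset.mul_sum]
    refine Finset.sum_congr rfl fun i _ => ?_
    rw [Matrix.trace_smul, Matrix.trace_smul, up_trace, htr (b i)]
    have h1 : LinearMap.trace K 𝒞 (LinearMap.mulLeft K (b i)) =
        (Algebra.leftMulMatrix b (b i)).trace := by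
      rw [LinearMap.trace_eq_matrix_trace K b, Algebra.leftMulMatrix_apply]
      rfl
    have h2 : ((Algebra.leftMulMatrix b (b i)).map (algebraMap K Ω)).trace =
        algebraMap K Ω (Algebra.leftMulMatrix b (b i)).trace := by
      unfold Matrix.trace
      simp
    rw [h1, h2, map_mul, map_natCast, smul_eq_mul, smul_eq_mul]
    ring
  have hpos : 1 ≤ L.rank := by
    by_contra h
    exact hL0 (eq_zero_of_rank (by omega))
  have hfin : (e.rank : Ω) = ((n * L.rank : ℕ) : Ω) := by
    rw [hr2, htL, ← hr1]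
    push_cast
    ring
  have := Nat.cast_injective hfin
  rw [this]
  exact Nat.le_mul_of_pos_right n hpos

/-- the form over the larger field -/
theorem bc_herm {J : Matrix (Fin N) (Fin N) K} (h : Herm J 𝒞) : Herm (up Ω J) (bc 𝒞 Ω) := by
  obtain ⟨h1, h2, h3, h4, A, hA, A', hA', h5, h6⟩ := h
  have hdet : ∀ M : Matrix (Fin N) (Fin N) K, M.det ≠ 0 → (up Ω M).det ≠ 0 := by
    intro M hM
    have e : (up Ω M).det = algebraMap K Ω M.det := (RingHom.map_det _ _).symm
    rw [e]
    exact fun h0 => hM ((algebraMap K Ω).injective (by rw [h0, map_zero]))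
  have hsub : ∀ A B : Matrix (Fin N) (Fin N) K, up Ω (A - B) = up Ω A - up Ω B := by
    intro A B
    ext i j
    simp [up]
  refine ⟨?_, hdet _ h2, bc_comm h3, ?_, up Ω A, up_mem hA, up Ω A', up_mem hA', ?_, ?_⟩
  · rcases h1 with h | h
    · left
      rw [← up_transpose, h]
    · right
      rw [← up_transpose, h]
      ext i j
      simp [up]
  · intro M hM
    obtain ⟨c, rfl⟩ := coords (Module.finBasis K 𝒞) hM
    choose g hg hgJ using h4
    refine ⟨∑ i, c i • up Ω (g _ (Module.finBasis K 𝒞 i).2),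
      Subalgebra.sum_mem _ fun i _ => Subalgebra.smul_mem _ (up_mem (hg _ _)) _, ?_⟩
    rw [Matrix.transpose_sum, Finset.sum_mul, Finset.mul_sum]
    refine Finset.sum_congr rfl fun i _ => ?_
    rw [Matrix.transpose_smul, smul_mul_assoc, mul_smul_comm, ← up_transpose, ← up_mul, ← up_mul,
      hgJ]
  · rw [← up_transpose, ← up_mul, ← up_mul, h5]
  · rw [← hsub]
    exact hdet _ h6

end Pool.Agent.Y177.SU
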